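import Mathlib
import Pool.Agent.H22.VM.Targets

/-!
# Vinogradov mean values below the critical exponent: modules TN, TV, R1, SB
-/

set_option autoImplicit false

open Finset Polynomial

namespace Pool.Agent.H94.VM

open Pool.Agent.H22.VM

theorem tn (hBO : T_BO) (hB0 : T_B0) : T_TN := by
  intro p k n a b s M L hp hkp hk ha han hbn hnk hM hs ι Ω _ w R r F hw hInv h1 h2
  refine hBO p k n a n b s M L (L / s) hp hkp hk ha han le_rfl hnk hbn ι Ω w R r F hInv ?_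
  have h := (hB0 p n s M L hp.one_lt hM (by linarith) ι Ω w R r F hw h1 h2).2.1 1 b zero_le_one hs hbn
  have h3 : 1 / s * L = L / s := by ring
  rwa [h3] at h

theorem tv (hCL : T_CL) : T_TV := by
  intro p n s M hp hs ι Ω _ w R r F hw h1 a ha ξ
  obtain ⟨-, -, -, -, h5⟩ := hCL p hp ι R r
  have hN : (0 : ℝ) < (p : ℝ) ^ (n - a) := by
    have : (0 : ℝ) < p := by exact_mod_cast (by omega : 0 < p)
    positivity
  have hpt : ∀ ω, ‖bs F (cls p R r a ξ) ω‖ ^ (2 * s) ≤ ((p : ℝ) ^ (n - a)) ^ (2 * s - 1) *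
      ∑ j ∈ range (p ^ (n - a)), ‖bs F (cls p R r n (ξ + (p : ℤ) ^ a * (j : ℤ))) ω‖ ^ (2 * s) := by
    intro ω
    have h6 : bs F (cls p R r a ξ) ω = ∑ j ∈ range (p ^ (n - a)),
        bs F (cls p R r n (ξ + (p : ℤ) ^ a * (j : ℤ))) ω := h5 ℂ (fun i => F i ω) a n ξ ha
    have h7 : ‖bs F (cls p R r a ξ) ω‖ ≤ ∑ j ∈ range (p ^ (n - a)),
        |‖bs F (cls p R r n (ξ + (p : ℤ) ^ a * (j : ℤ))) ω‖| := by
      rw [h6]
      simp only [abs_norm]
      exact norm_sum_le _ _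
    have h8 := Real.rpow_sum_le_const_mul_sum_rpow (s := range (p ^ (n - a)))
      (fun j : ℕ => ‖bs F (cls p R r n (ξ + (p : ℤ) ^ a * (j : ℤ))) ω‖) (p := 2 * s) (by linarith)
    simp only [abs_norm, card_range, Nat.cast_pow] at h8
    simp only [abs_norm] at h7
    exact (Real.rpow_le_rpow (norm_nonneg _) h7 (by linarith)).trans h8
  calc mo w F s (cls p R r a ξ)
      ≤ ∑ ω, w ω * (((p : ℝ) ^ (n - a)) ^ (2 * s - 1) *
      ∑ j ∈ range (p ^ (n - a)), ‖bs F (cls p R r n (ξ + (p : ℤ) ^ a * (j : ℤ))) ω‖ ^ (2 * s)) :=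
        sum_le_sum fun ω _ => mul_le_mul_of_nonneg_left (hpt ω) (hw ω)
    _ = ((p : ℝ) ^ (n - a)) ^ (2 * s - 1) * ∑ j ∈ range (p ^ (n - a)),
        mo w F s (cls p R r n (ξ + (p : ℤ) ^ a * (j : ℤ))) := by
        unfold mo
        rw [sum_comm, mul_sum]
        refine sum_congr rfl fun ω _ => ?_
        rw [mul_sum, mul_sum, mul_sum]
        refine sum_congr rfl fun j _ => ?_
        ring
    _ ≤ ((p : ℝ) ^ (n - a)) ^ (2 * s - 1) * ∑ j ∈ range (p ^ (n - a)), M :=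
        mul_le_mul_of_nonneg_left (sum_le_sum fun j _ => h1 _) (by positivity)
    _ = ((p : ℝ) ^ (n - a)) ^ (2 * s) * M := by
        rw [sum_const, card_range, nsmul_eq_mul, Nat.cast_pow, ← mul_assoc]
        congr 1
        nth_rewrite 2 [← Real.rpow_one ((p : ℝ) ^ (n - a))]
        rw [← Real.rpow_add hN]
        congr 1
        ring

theorem r1 (hCL : T_CL) (hSG : T_SG) : T_R1 := by
  intro p k l m a b n' ξ η u τ A M' hp hkp hl hlk ha hkb h1 h2 hξη hFlat ι Ω _ w R r F hw hInv hM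
  have hSG' := hSG p k l m a b n' ξ η u hp hkp hl hlk ha hkb h1 h2 hξη ι Ω w R r F hInv
  have hcl := (hCL p hp.one_lt ι R r).1
  have hmo : ∀ A : Finset ι, mo (fun ω => w ω * ‖bs F (cls p R r b η) ω‖ ^ (2 * u)) F τ A =
      mm w F A τ (cls p R r b η) u := by
    intro A
    unfold mo mm
    refine sum_congr rfl fun ω _ => ?_
    ring
  have := hFlat ι Ω (fun ω => w ω * ‖bs F (cls p R r b η) ω‖ ^ (2 * u)) (cls p R r a ξ)
    (fun i => (r i - ξ) / (p : ℤ) ^ a) F M'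
    (fun ω => mul_nonneg (hw ω) (Real.rpow_nonneg (norm_nonneg _) _)) hSG' ?_
  · rwa [hmo] at this
  · intro ζ
    rw [hmo, hcl]
    exact hM _ ⟨ζ, by ring⟩

theorem sb : T_SB := by
  intro p k m a ξ hp hkm ι Ω _ w R r F hInv P hP
  have hp0 : (0 : ℝ) < p := by exact_mod_cast (by omega : 0 < p)
  set Q : ℤ[X] := ∑ j ∈ range (k + 1), C (P.coeff j * (p : ℤ) ^ (a * (k - j))) * (X - C ξ) ^ j with hQ
  have hdeg : Q.natDegree ≤ k := by
    refine natDegree_sum_le_of_forall_le _ _ fun j hj => ?_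
    refine (natDegree_C_mul_le _ _).trans ((natDegree_pow_le).trans ?_)
    rw [natDegree_X_sub_C, mul_one]
    exact Nat.lt_succ_iff.mp (mem_range.mp hj)
  obtain ⟨T, hT, φ, hφ, hF⟩ := hInv Q hdeg
  refine ⟨T, hT, φ, hφ, fun i hi ω => ?_⟩
  have hi' := hi
  unfold cls at hi'
  rw [mem_filter] at hi'
  rw [hF i hi'.1 ω]
  obtain ⟨x, hx⟩ := hi'.2
  have hpa : ((p : ℤ) ^ a) ≠ 0 := by
    have : (p : ℤ) ≠ 0 := by exact_mod_cast (by omega : p ≠ 0)
    positivity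
  have hdiv : (r i - ξ) / (p : ℤ) ^ a = x := by
    rw [hx]
    exact Int.mul_ediv_cancel_left _ hpa
  have hQe : Q.eval (r i) = (p : ℤ) ^ (a * k) * P.eval x := by
    rw [hQ, eval_finset_sum, eval_eq_sum_range' (Nat.lt_succ_of_le hP), mul_sum]
    refine sum_congr rfl fun j hj => ?_
    have hj' : j ≤ k := Nat.lt_succ_iff.mp (mem_range.mp hj)
    simp only [eval_mul, eval_C, eval_pow, eval_sub, eval_X]
    rw [hx, mul_pow, ← pow_mul]
    have : (p : ℤ) ^ (a * k) = (p : ℤ) ^ (a * (k - j)) * (p : ℤ) ^ (a * j) := by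
      rw [← pow_add, ← mul_add]
      congr 2
      omega
    rw [this]
    ring
  have hfin : (((Q.eval (r i) : ℤ) : ℝ) / ((p ^ m : ℕ) : ℝ)) =
      (((P.eval ((r i - ξ) / (p : ℤ) ^ a) : ℤ) : ℝ) / ((p ^ (m - k * a) : ℕ) : ℝ)) := by
    rw [hdiv, hQe]
    push_cast
    have : (p : ℝ) ^ m = (p : ℝ) ^ (a * k) * (p : ℝ) ^ (m - k * a) := by
      rw [← pow_add]
      congr 1
      rw [mul_comm a k]
      omega
    rw [this]
    field_simp
  rw [hfin]

end Pool.Agent.H94.VM
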