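import Mathlib
import Pool.Agent.H22.VM.Targets

/-!
# Vinogradov mean values below the critical exponent: modules MB, TB
-/

set_option autoImplicit false

open Finset Polynomial

namespace Pool.Agent.H94.VM

open Pool.Agent.H22.VM

theorem mb (hCL : T_CL) : T_MB := by
  intro p n s M Λ hp hM hΛ hs ι Ω _ w R r F hw h1 h2
  have hp0 : (0 : ℝ) < p := by exact_mod_cast (by omega : 0 < p)
  obtain ⟨-, -, h3, -, -⟩ := hCL p hp ι R r
  set f : ℕ × ℕ → ℝ := fun q => mo w F s (cls p R r q.1 (q.2 : ℤ)) / (((p : ℝ) ^ (n - q.1)) ^ s * M) with hf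
  have hden : ∀ a : ℕ, 0 < ((p : ℝ) ^ (n - a)) ^ s * M := fun a => by positivity
  have hpn : 0 < p ^ n := Nat.pos_of_ne_zero (by positivity)
  have hpnZ : (0 : ℤ) < (p : ℤ) ^ n := by exact_mod_cast hpn
  obtain ⟨⟨a₀, x₀⟩, hmem, hmax⟩ := exists_max_image (range (n + 1) ×ˢ range (p ^ n)) f
    ⟨(0, 0), by
      rw [mem_product, mem_range, mem_range]
      exact ⟨Nat.succ_pos n, hpn⟩⟩
  rw [mem_product, mem_range, mem_range] at hmem
  -- every class is one of the finitely many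
  have hall : ∀ a ≤ n, ∀ ξ : ℤ, mo w F s (cls p R r a ξ) / (((p : ℝ) ^ (n - a)) ^ s * M) ≤ f (a₀, x₀) := by
    intro a ha ξ
    have hx0 : 0 ≤ ξ % (p : ℤ) ^ n := Int.emod_nonneg _ hpnZ.ne'
    have hx1 : ξ % (p : ℤ) ^ n < (p : ℤ) ^ n := Int.emod_lt_of_pos _ hpnZ
    have hdiv : (p : ℤ) ^ a ∣ ((ξ % (p : ℤ) ^ n).toNat : ℤ) - ξ := by
      rw [Int.toNat_of_nonneg hx0]
      refine (pow_dvd_pow (p : ℤ) ha).trans ?_
      rw [← Int.modEq_iff_dvd]
      exact (Int.mod_modEq ξ _).symm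
    have h4 := h3 a ξ _ hdiv
    have h5 := hmax (a, (ξ % (p : ℤ) ^ n).toNat) (by
      rw [mem_product, mem_range, mem_range]
      refine ⟨Nat.lt_succ_of_le ha, ?_⟩
      have : ((ξ % (p : ℤ) ^ n).toNat : ℤ) < ((p ^ n : ℕ) : ℤ) := by
        rw [Int.toNat_of_nonneg hx0]
        push_cast
        exact hx1
      exact_mod_cast this)
    simp only [hf] at h5 ⊢
    rw [h4] at h5
    exact h5
  have hbig : Real.exp Λ < f (a₀, x₀) := by
    obtain ⟨a, ha, ξ, hlt⟩ := h2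
    refine lt_of_lt_of_le ?_ (hall a ha ξ)
    rw [lt_div_iff₀ (hden a)]
    linarith
  have hpos : 0 < f (a₀, x₀) := (Real.exp_pos Λ).trans hbig
  have hexp : Real.exp (Real.log (f (a₀, x₀))) = f (a₀, x₀) := Real.exp_log hpos
  refine ⟨a₀, (x₀ : ℤ), Real.log (f (a₀, x₀)), ?_, ?_, ?_, ?_⟩
  · rcases (Nat.lt_succ_iff.mp hmem.1).lt_or_eq with h6 | h6
    · exact h6
    · exfalso
      have h6' : a₀ = n := h6
      have h7 : f (a₀, x₀) ≤ 1 := by
        change mo w F s (cls p R r a₀ (x₀ : ℤ)) / (((p : ℝ) ^ (n - a₀)) ^ s * M) ≤ 1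
        rw [div_le_one (hden a₀), h6']
        simpa using h1 x₀
      have h8 : 1 ≤ Real.exp Λ := Real.one_le_exp hΛ
      linarith
  · rw [Real.lt_log_iff_exp_lt hpos]
    exact hbig
  · rw [hexp]
    simp only [hf]
    rw [mul_assoc, div_mul_cancel₀ _ (hden a₀).ne']
  · intro a ha ξ
    have h9 := hall a ha ξ
    rw [div_le_iff₀ (hden a)] at h9
    rw [hexp, mul_assoc]
    exact h9

theorem tb (hRC : T_RC) (hCH : T_CH) : T_TB := by
  intro k p hk hp hkp hp32
  obtain ⟨s₁, C, γ, hs₁, hC, hγ0, hγ1, hRC'⟩ := hRC k p hk hp hkp hp32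
  obtain ⟨C₁, hC₁⟩ := hCH (KK k - 1) s₁ C γ hs₁ hC hγ0 hγ1
  have hKK : 0 < KK k - 1 := by
    unfold KK
    have : (3 : ℝ) ≤ k := by exact_mod_cast hk
    nlinarith
  have hp0 : (0 : ℝ) < p := by exact_mod_cast hp.pos
  refine ⟨Real.exp C₁ + 1, by positivity, fun B => ?_⟩
  intro ι Ω _ w R r F hw hInv hF hinj hr
  rcases (sum_nonneg fun ω _ => hw ω : 0 ≤ ∑ ω, w ω).eq_or_lt with h0 | h0
  · have hw0 : ∀ ω, w ω = 0 := fun ω => (sum_eq_zero_iff_of_nonneg (fun ω _ => hw ω)).mp h0.symm ω (mem_univ ω)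
    unfold mo
    simp [hw0]
  · rcases Nat.eq_zero_or_pos B with hB | hB
    · subst hB
      have hcard : R.card ≤ 1 := by
        rw [card_le_one]
        intro i hi j hj
        have h1 := hr i hi
        have h2 := hr j hj
        simp only [pow_zero] at h1 h2
        exact hinj hi hj (by omega)
      have hbs : ∀ ω, ‖bs F R ω‖ ≤ 1 := by
        intro ω
        unfold bs
        refine (norm_sum_le _ _).trans ?_
        refine (sum_le_sum fun i hi => hF i hi ω).trans ?_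
        rw [sum_const, nsmul_eq_mul, mul_one]
        exact_mod_cast hcard
      have h3 : mo w F (KK k - 1) R ≤ ∑ ω, w ω := by
        unfold mo
        refine sum_le_sum fun ω _ => ?_
        have h4 : ‖bs F R ω‖ ^ (2 * (KK k - 1)) ≤ 1 :=
          Real.rpow_le_one (norm_nonneg _) (hbs ω) (by linarith)
        nlinarith [hw ω]
      have h5 : 0 < Real.exp C₁ := Real.exp_pos C₁
      simp only [pow_zero, Real.one_rpow, mul_one]
      nlinarith
    · obtain ⟨Λ, hΛ0, hΛK, hΛ1, hΛ2⟩ := hRC' B ι Ω w R r F hB hw h0 hInv hF hinj hr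
      have h6 := hC₁ Λ hΛ0 hΛK hΛ2
      refine (hΛ1 (KK k - 1) le_rfl hs₁.le).trans ?_
      have h7 : Real.exp (Λ (KK k - 1)) ≤ Real.exp C₁ + 1 := by
        have := Real.exp_le_exp.mpr h6
        linarith
      have h8 : 0 ≤ ((p : ℝ) ^ B) ^ (KK k - 1) := by positivity
      exact mul_le_mul_of_nonneg_right (mul_le_mul_of_nonneg_right h7 h8) h0.le

end Pool.Agent.H94.VM
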